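import Pool.Agent.helper24.Row.Defs

/-!
# Multiplication operators on a reproducing kernel Hilbert space
-/

namespace Pool.Agent.helper24.Row

open Finset
open scoped ComplexConjugate

variable {d : ℕ} {Ω : Set (EuclideanSpace ℂ (Fin d))} {H : Type*}
    [NormedAddCommGroup H] [InnerProductSpace ℂ H] [RKHS ℂ H Ω ℂ]

theorem coe_finset_sum {ι : Type*} (s : Finset ι) (f : ι → H) (z : Ω) :
    (∑ j ∈ s, f j) z = ∑ j ∈ s, f j z := by
  classical
  induction s using Finset.induction_on with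
  | empty => simp
  | insert a s ha ih => rw [Finset.sum_insert ha, Finset.sum_insert ha, RKHS.coe_add, Pi.add_apply, ih]

theorem pow_mul_apply {A : H →L[ℂ] H} {c : ℂ} {z : Ω} (hA : ∀ f : H, (A f) z = c * f z) (n : ℕ)
    (f : H) : ((A ^ n) f) z = c ^ n * f z := by
  induction n generalizing f with
  | zero => simp
  | succ n ih => rw [pow_succ, mul_apply_eq_comp, ih, hA, pow_succ]; ring

theorem list_mul_apply {z : Ω} (l : List ((H →L[ℂ] H) × ℂ))
    (hl : ∀ q ∈ l, ∀ f : H, (q.1 f) z = q.2 * f z) (f : H) :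
    ((l.map Prod.fst).prod f) z = (l.map Prod.snd).prod * f z := by
  induction l generalizing f with
  | nil => simp
  | cons q l ih =>
    rw [List.map_cons, List.prod_cons, List.map_cons, List.prod_cons, mul_apply_eq_comp,
      hl q (by simp), ih (fun q' hq' => hl q' (by simp [hq']))]
    ring

theorem opEval_apply {Mz : Fin d → H →L[ℂ] H}
    (hM : ∀ i (f : H) (z : Ω), (Mz i f) z = (z : EuclideanSpace ℂ (Fin d)) i * f z)
    (p : MvPolynomial (Fin d) ℂ) (f : H) (z : Ω) :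
    (opEval Mz p f) z = MvPolynomial.eval (z : EuclideanSpace ℂ (Fin d)) p * f z := by
  rw [opEval_def, _root_.sum_apply, coe_finset_sum, MvPolynomial.eval_eq', Finset.sum_mul]
  refine Finset.sum_congr rfl fun α _ => ?_
  rw [smul_apply, RKHS.coe_smul, Pi.smul_apply, smul_eq_mul, mul_assoc]
  congr 1
  have h := list_mul_apply (z := z)
    (List.ofFn fun i : Fin d => (Mz i ^ α i, ((z : EuclideanSpace ℂ (Fin d)) i) ^ α i)) ?_ f
  · rw [List.map_ofFn, List.map_ofFn] at h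
    rw [List.prod_ofFn (f := Prod.snd ∘ _)] at h
    exact h
  · intro q hq f
    obtain ⟨i, rfl⟩ := (List.mem_ofFn' _ _).1 hq
    exact pow_mul_apply (fun f => hM i f z) (α i) f

/-- The row norm of a polynomial row at a point is at most every bound of its multiplication
operator. -/
theorem sup_le_mult [CompleteSpace H] {m : ℕ} {P : Matrix (Fin 1) (Fin m) (Pol d)}
    {C : ℝ} (hM : MultBound (Ω := Ω) H P C) (z : Ω) (hz : RKHS.kerFun H z (1 : ℂ) ≠ 0) :
    ∑ k, ‖MvPolynomial.eval (z : EuclideanSpace ℂ (Fin d)) (P 0 k)‖ ^ 2 ≤ C ^ 2 := by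
  obtain ⟨hC0, hM⟩ := hM
  set a : Fin m → ℂ := fun k => MvPolynomial.eval (z : EuclideanSpace ℂ (Fin d)) (P 0 k) with ha
  set κ : H := RKHS.kerFun H z (1 : ℂ) with hκ
  set S : ℝ := ∑ k, ‖a k‖ ^ 2 with hS
  have hS0 : 0 ≤ S := Finset.sum_nonneg fun k _ => by positivity
  have hκ0 : 0 < ‖κ‖ := norm_pos_iff.2 hz
  set f : Fin m → H := fun k => conj (a k) • κ with hf
  have hnf : ∑ k, ‖f k‖ ^ 2 = S * ‖κ‖ ^ 2 := by
    rw [hS, Finset.sum_mul]
    refine Finset.sum_congr rfl fun k _ => ?_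
    simp only [hf, norm_smul, RCLike.norm_conj]
    ring
  obtain ⟨g, hg, hgn⟩ := hM f
  rw [Fin.sum_univ_one, hnf] at hgn
  have hinner : ∀ g : H, inner ℂ κ g = g z := by
    intro g
    rw [hκ, RKHS.kerFun_inner]
    simp
  have hκz : κ z = ((‖κ‖ ^ 2 : ℝ) : ℂ) := by
    rw [← hinner, inner_self_eq_norm_sq_to_K]
    push_cast
    rfl
  have hMf : g 0 z = ((S * ‖κ‖ ^ 2 : ℝ) : ℂ) := by
    rw [hg 0 z]
    have : ∀ k, MvPolynomial.eval (z : EuclideanSpace ℂ (Fin d)) (P 0 k) * (f k) z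
        = ((‖a k‖ ^ 2 : ℝ) : ℂ) * ((‖κ‖ ^ 2 : ℝ) : ℂ) := by
      intro k
      simp only [hf, RKHS.coe_smul, Pi.smul_apply, smul_eq_mul]
      rw [hκz, ← mul_assoc]
      congr 1
      have h9 : a k * conj (a k) = ((‖a k‖ ^ 2 : ℝ) : ℂ) := by
        rw [Complex.mul_conj']
        push_cast
        rfl
      exact h9
    rw [Finset.sum_congr rfl fun k _ => this k, ← Finset.sum_mul, hS]
    push_cast
    rfl
  have h1 : S * ‖κ‖ ^ 2 ≤ ‖κ‖ * ‖g 0‖ := by
    have h2 : ‖g 0 z‖ = S * ‖κ‖ ^ 2 := by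
      rw [hMf, Complex.norm_real, Real.norm_of_nonneg (by positivity)]
    rw [← h2, ← hinner]
    exact norm_inner_le_norm _ _
  have h3 : ‖g 0‖ ≤ C * (Real.sqrt S * ‖κ‖) := by
    apply le_of_sq_le_sq _ (by positivity)
    rw [mul_pow, mul_pow, Real.sq_sqrt hS0]
    exact hgn
  have h4 : Real.sqrt S * Real.sqrt S = S := Real.mul_self_sqrt hS0
  by_cases hS1 : S = 0
  · rw [hS1]; positivity
  · have hsq : 0 < Real.sqrt S := Real.sqrt_pos.2 (lt_of_le_of_ne hS0 (Ne.symm hS1))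
    have h5 : Real.sqrt S ≤ C := by
      have h6 : (Real.sqrt S * ‖κ‖ ^ 2) * Real.sqrt S ≤ (Real.sqrt S * ‖κ‖ ^ 2) * C := by
        nlinarith
      exact le_of_mul_le_mul_left h6 (by positivity)
    calc S = Real.sqrt S ^ 2 := (Real.sq_sqrt hS0).symm
      _ ≤ C ^ 2 := by gcongr

/-- If the coordinate functions are multipliers, then so are all matrix polynomials. -/
theorem exists_multBound {Mz : Fin d → H →L[ℂ] H}
    (hM : ∀ i (f : H) (z : Ω), (Mz i f) z = (z : EuclideanSpace ℂ (Fin d)) i * f z)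
    {p m : ℕ} (P : Matrix (Fin p) (Fin m) (Pol d)) : ∃ C, MultBound (Ω := Ω) H P C := by
  refine ⟨∑ i, ∑ j, ‖opEval Mz (P i j)‖, Finset.sum_nonneg fun i _ =>
    Finset.sum_nonneg fun j _ => norm_nonneg _, fun f => ⟨fun i => ∑ j, opEval Mz (P i j) (f j),
      fun i z => ?_, ?_⟩⟩
  · rw [coe_finset_sum]
    exact Finset.sum_congr rfl fun j _ => opEval_apply hM _ _ _
  · set F : ℝ := ∑ j, ‖f j‖ ^ 2 with hF
    have hF0 : 0 ≤ F := Finset.sum_nonneg fun j _ => by positivity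
    have hj : ∀ j, ‖f j‖ ≤ Real.sqrt F := by
      intro j
      apply Real.le_sqrt_of_sq_le
      exact Finset.single_le_sum (f := fun j => ‖f j‖ ^ 2) (fun j _ => by positivity)
        (Finset.mem_univ j)
    have hi : ∀ i, ‖∑ j, opEval Mz (P i j) (f j)‖ ≤ (∑ j, ‖opEval Mz (P i j)‖) * Real.sqrt F := by
      intro i
      refine (norm_sum_le _ _).trans ?_
      rw [Finset.sum_mul]
      refine Finset.sum_le_sum fun j _ => ((opEval Mz (P i j)).le_opNorm (f j)).trans ?_
      gcongr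
      exact hj j
    set c : Fin p → ℝ := fun i => ∑ j, ‖opEval Mz (P i j)‖ with hc
    have hc0 : ∀ i, 0 ≤ c i := fun i => Finset.sum_nonneg fun j _ => norm_nonneg _
    calc ∑ i, ‖∑ j, opEval Mz (P i j) (f j)‖ ^ 2 ≤ ∑ i, (c i * Real.sqrt F) ^ 2 := by
          refine Finset.sum_le_sum fun i _ => ?_
          have := hi i
          gcongr
      _ = (∑ i, c i ^ 2) * F := by
          rw [Finset.sum_mul]
          refine Finset.sum_congr rfl fun i _ => ?_
          rw [mul_pow, Real.sq_sqrt hF0]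
      _ ≤ (∑ i, c i) ^ 2 * F := by
          apply mul_le_mul_of_nonneg_right _ hF0
          exact Finset.sum_sq_le_sq_sum_of_nonneg fun i _ => hc0 i

end Pool.Agent.helper24.Row
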