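import Mathlib

/-!
# Slices of vector valued polynomials on the ball

Auxiliary file for `MP_59d57e_an`.
-/

namespace Pool.Agent.helper24.Row

open Finset

/-- The one variable polynomial `p(t v)` in `t`. -/
noncomputable def sliceP {d : ℕ} (v : Fin d → ℂ) (p : MvPolynomial (Fin d) ℂ) : Polynomial ℂ :=
  MvPolynomial.aeval (fun i => Polynomial.C (v i) * Polynomial.X) p

theorem sliceP_eval {d : ℕ} (v : Fin d → ℂ) (p : MvPolynomial (Fin d) ℂ) (t : ℂ) :
    (sliceP v p).eval t = MvPolynomial.eval (fun i => t * v i) p := by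
  unfold sliceP
  induction p using MvPolynomial.induction_on with
  | C a => simp
  | add p q hp hq => simp [hp, hq]
  | mul_X p i hp => simp [hp]; left; ring

theorem sliceP_coeff_zero {d : ℕ} (v : Fin d → ℂ) (p : MvPolynomial (Fin d) ℂ) :
    (sliceP v p).coeff 0 = MvPolynomial.coeff 0 p := by
  rw [Polynomial.coeff_zero_eq_eval_zero, sliceP_eval]
  simp only [zero_mul]
  rw [← MvPolynomial.constantCoeff_eq, ← MvPolynomial.eval_zero]
  rfl

theorem sliceP_coeff_one {d : ℕ} (v : Fin d → ℂ) (p : MvPolynomial (Fin d) ℂ) :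
    (sliceP v p).coeff 1 = ∑ i, v i * MvPolynomial.coeff (Finsupp.single i 1) p := by
  classical
  induction p using MvPolynomial.induction_on with
  | C a =>
    simp only [sliceP, MvPolynomial.algHom_C]
    rw [show (algebraMap ℂ (Polynomial ℂ)) a = Polynomial.C a from rfl, Polynomial.coeff_C]
    simp only [one_ne_zero, if_false]
    symm
    apply Finset.sum_eq_zero
    intro i _
    rw [MvPolynomial.coeff_C, if_neg, mul_zero]
    intro h
    have := DFunLike.congr_fun h i
    simp at this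
  | add p q hp hq =>
    simp only [sliceP] at hp hq
    simp only [sliceP, map_add, Polynomial.coeff_add, hp, hq, MvPolynomial.coeff_add, mul_add,
      Finset.sum_add_distrib]
  | mul_X p i hp =>
    have h0 := sliceP_coeff_zero v p
    simp only [sliceP] at h0
    simp only [sliceP, map_mul, MvPolynomial.aeval_X]
    rw [← mul_assoc, Polynomial.coeff_mul_X, Polynomial.coeff_mul_C, h0]
    rw [Finset.sum_eq_single i]
    · rw [show (Finsupp.single i 1 : Fin d →₀ ℕ) = 0 + Finsupp.single i 1 by simp,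
        MvPolynomial.coeff_mul_X]
      ring
    · intro j _ hj
      rw [MvPolynomial.coeff_mul_X', if_neg, mul_zero]
      simpa using fun h => hj h.symm
    · simp

/-- Parseval for a polynomial, only the first two coefficients. -/
theorem two_coeff_le (F : Polynomial ℂ) :
    ‖F.coeff 0‖ ^ 2 + ‖F.coeff 1‖ ^ 2 ≤ ∑ i ∈ F.support, ‖F.coeff i‖ ^ 2 := by
  have h : ∑ i ∈ F.support, ‖F.coeff i‖ ^ 2 = ∑ i ∈ F.support ∪ {0, 1}, ‖F.coeff i‖ ^ 2 := by
    apply Finset.sum_subset Finset.subset_union_left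
    intro i _ hi
    simp only [Polynomial.mem_support_iff, ne_eq, not_not] at hi
    simp [hi]
  rw [h]
  calc ‖F.coeff 0‖ ^ 2 + ‖F.coeff 1‖ ^ 2 = ∑ i ∈ ({0, 1} : Finset ℕ), ‖F.coeff i‖ ^ 2 := by simp
    _ ≤ _ := Finset.sum_le_sum_of_subset_of_nonneg Finset.subset_union_right
      (fun i _ _ => by positivity)

theorem two_coeff_eq (a b : ℂ) :
    ∑ i ∈ (Polynomial.C a + Polynomial.C b * Polynomial.X).support,
      ‖(Polynomial.C a + Polynomial.C b * Polynomial.X).coeff i‖ ^ 2 = ‖a‖ ^ 2 + ‖b‖ ^ 2 := by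
  have h : ∑ i ∈ (Polynomial.C a + Polynomial.C b * Polynomial.X).support,
      ‖(Polynomial.C a + Polynomial.C b * Polynomial.X).coeff i‖ ^ 2
      = ∑ i ∈ (Finset.range 2),
      ‖(Polynomial.C a + Polynomial.C b * Polynomial.X).coeff i‖ ^ 2 := by
    apply Finset.sum_subset
    · intro i hi
      rw [Finset.mem_range]
      by_contra hcon
      rw [Polynomial.mem_support_iff] at hi
      apply hi
      rw [Polynomial.coeff_add, Polynomial.coeff_C, if_neg (by omega), Polynomial.coeff_C_mul,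
        Polynomial.coeff_X, if_neg (by omega)]
      simp
    · intro i _ hi
      simp only [Polynomial.mem_support_iff, ne_eq, not_not] at hi
      simp [hi]
  rw [h, Finset.sum_range_succ, Finset.sum_range_one]
  simp [Polynomial.coeff_X, Polynomial.coeff_C]

theorem circleIntegrable_poly (F : Polynomial ℂ) :
    CircleIntegrable (fun θ => ‖F.eval θ‖ ^ 2) 0 1 := by
  exact ((F.continuous.norm).pow 2).continuousOn.circleIntegrable zero_le_one

/-- The row version of the von Neumann inequality for the `2 × 2` nilpotent block, in coefficient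
form. -/
theorem one_var {m : ℕ} (q : Fin m → Polynomial ℂ) (C : ℝ)
    (hq : ∀ t : ℂ, ‖t‖ = 1 → ∑ k, ‖(q k).eval t‖ ^ 2 ≤ C ^ 2) (a b : Fin m → ℂ) :
    ‖∑ k, (q k).coeff 0 * a k‖ ^ 2 + ‖∑ k, ((q k).coeff 0 * b k + (q k).coeff 1 * a k)‖ ^ 2
      ≤ C ^ 2 * ∑ k, (‖a k‖ ^ 2 + ‖b k‖ ^ 2) := by
  set g : Fin m → Polynomial ℂ := fun k => Polynomial.C (a k) + Polynomial.C (b k) * Polynomial.X
    with hg
  set F : Polynomial ℂ := ∑ k, q k * g k with hF
  have hF0 : F.coeff 0 = ∑ k, (q k).coeff 0 * a k := by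
    simp [hF, hg, Polynomial.finsetSum_coeff, Polynomial.mul_coeff_zero]
  have hF1 : F.coeff 1 = ∑ k, ((q k).coeff 0 * b k + (q k).coeff 1 * a k) := by
    rw [hF, Polynomial.finsetSum_coeff]
    refine Finset.sum_congr rfl fun k _ => ?_
    rw [hg]
    simp only [mul_add, Polynomial.coeff_add]
    rw [← mul_assoc, Polynomial.coeff_mul_X, Polynomial.coeff_mul_C, Polynomial.coeff_mul_C]
    ring
  rw [← hF0, ← hF1]
  refine (two_coeff_le F).trans ?_
  rw [Polynomial.sum_sq_norm_coeff_eq_circleAverage]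
  have hpt : ∀ t : ℂ, ‖t‖ = 1 → ‖F.eval t‖ ^ 2 ≤ C ^ 2 * ∑ k, ‖(g k).eval t‖ ^ 2 := by
    intro t ht
    have h1 : F.eval t = ∑ k, (q k).eval t * (g k).eval t := by
      simp [hF, Polynomial.eval_finsetSum]
    rw [h1]
    have h2 : ‖∑ k, (q k).eval t * (g k).eval t‖ ≤ ∑ k, ‖(q k).eval t‖ * ‖(g k).eval t‖ := by
      refine (norm_sum_le _ _).trans_eq ?_
      simp
    have h3 : (∑ k, ‖(q k).eval t‖ * ‖(g k).eval t‖) ^ 2
        ≤ (∑ k, ‖(q k).eval t‖ ^ 2) * ∑ k, ‖(g k).eval t‖ ^ 2 :=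
      Finset.sum_mul_sq_le_sq_mul_sq _ _ _
    calc ‖∑ k, (q k).eval t * (g k).eval t‖ ^ 2
        ≤ (∑ k, ‖(q k).eval t‖ * ‖(g k).eval t‖) ^ 2 := by gcongr
      _ ≤ _ := h3
      _ ≤ _ := by
        apply mul_le_mul_of_nonneg_right (hq t ht)
        exact Finset.sum_nonneg fun k _ => by positivity
  have hint : CircleIntegrable (fun t => C ^ 2 * ∑ k, ‖(g k).eval t‖ ^ 2) 0 1 := by
    refine Continuous.continuousOn ?_ |>.circleIntegrable zero_le_one
    refine continuous_const.mul (continuous_finsetSum _ fun k _ => ?_)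
    exact ((g k).continuous.norm).pow 2
  refine (Real.circleAverage_mono (circleIntegrable_poly F) hint ?_).trans_eq ?_
  · intro t ht
    apply hpt
    simpa using ht
  · have h5 : (fun t : ℂ => C ^ 2 * ∑ k, ‖(g k).eval t‖ ^ 2)
        = C ^ 2 • (∑ k, fun t : ℂ => ‖(g k).eval t‖ ^ 2) := by
      ext t
      simp
    rw [h5, Real.circleAverage_smul, Real.circleAverage_sum]
    · rw [smul_eq_mul]
      congr 1
      refine Finset.sum_congr rfl fun k _ => ?_
      rw [← Polynomial.sum_sq_norm_coeff_eq_circleAverage, two_coeff_eq]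
    · intro k _
      exact circleIntegrable_poly _

open scoped ComplexConjugate

/-- The row version of the von Neumann inequality for the nilpotent tuple, in coefficient form. -/
theorem row_T {m d : ℕ} (p : Fin m → MvPolynomial (Fin d) ℂ) (C : ℝ)
    (hC : ∀ z : EuclideanSpace ℂ (Fin d), ‖z‖ ≤ 1 → ∑ k, ‖MvPolynomial.eval z (p k)‖ ^ 2 ≤ C ^ 2)
    (x0 : Fin m → ℂ) (x : Fin m → EuclideanSpace ℂ (Fin d)) (y0 : ℂ)
    (y : EuclideanSpace ℂ (Fin d))
    (hy0 : y0 = ∑ k, MvPolynomial.coeff 0 (p k) * x0 k)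
    (hy : ∀ i, y i = ∑ k, (MvPolynomial.coeff 0 (p k) * x k i
      + MvPolynomial.coeff (Finsupp.single i 1) (p k) * x0 k)) :
    ‖y0‖ ^ 2 + ‖y‖ ^ 2 ≤ C ^ 2 * ∑ k, (‖x0 k‖ ^ 2 + ‖x k‖ ^ 2) := by
  set u : EuclideanSpace ℂ (Fin d) := ((‖y‖⁻¹ : ℝ) : ℂ) • y with hu
  have hu1 : ‖u‖ ≤ 1 := by
    rw [hu, norm_smul]
    simp only [Complex.norm_real, norm_inv, norm_norm]
    exact inv_mul_le_one
  have huy : inner ℂ u y = (‖y‖ : ℂ) := by
    rw [hu, inner_smul_left, inner_self_eq_norm_sq_to_K]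
    simp only [Complex.conj_ofReal]
    by_cases h : ‖y‖ = 0
    · simp [h]
    · have h' : (‖y‖ : ℂ) ≠ 0 := by exact_mod_cast h
      push_cast
      field_simp
      rfl
  set v : Fin d → ℂ := fun i => conj (u i) with hv
  have hq : ∀ t : ℂ, ‖t‖ = 1 → ∑ k, ‖(sliceP v (p k)).eval t‖ ^ 2 ≤ C ^ 2 := by
    intro t ht
    have h := hC (WithLp.toLp 2 (fun i => t * v i)) ?_
    · simpa [sliceP_eval] using h
    · have : ‖(WithLp.toLp 2 (fun i => t * v i) : EuclideanSpace ℂ (Fin d))‖ = ‖u‖ := by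
        rw [EuclideanSpace.norm_eq, EuclideanSpace.norm_eq]
        simp [ht, hv]
      rw [this]
      exact hu1
  have key := one_var (fun k => sliceP v (p k)) C hq x0 (fun k => inner ℂ u (x k))
  have e0 : ∑ k, (sliceP v (p k)).coeff 0 * x0 k = y0 := by
    rw [hy0]
    exact Finset.sum_congr rfl fun k _ => by rw [sliceP_coeff_zero]
  have e1 : ∑ k, ((sliceP v (p k)).coeff 0 * inner ℂ u (x k) + (sliceP v (p k)).coeff 1 * x0 k)
      = (‖y‖ : ℂ) := by
    rw [← huy, PiLp.inner_apply]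
    simp only [RCLike.inner_apply]
    simp_rw [hy, sliceP_coeff_zero, sliceP_coeff_one, PiLp.inner_apply, RCLike.inner_apply]
    simp_rw [Finset.sum_mul, Finset.sum_add_distrib]
    rw [Finset.sum_comm (s := (Finset.univ : Finset (Fin d)))]
    rw [← Finset.sum_add_distrib]
    refine Finset.sum_congr rfl fun k _ => ?_
    simp_rw [add_mul, Finset.sum_add_distrib, Finset.mul_sum]
    congr 1
    · exact Finset.sum_congr rfl fun i _ => by ring
    · exact Finset.sum_congr rfl fun i _ => by simp only [hv]; ring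
  rw [e0, e1] at key
  have h6 : ‖((‖y‖ : ℝ) : ℂ)‖ = ‖y‖ := by simp
  rw [h6] at key
  refine key.trans ?_
  apply mul_le_mul_of_nonneg_left _ (sq_nonneg C)
  refine Finset.sum_le_sum fun k _ => ?_
  have h7 : ‖inner ℂ u (x k)‖ ≤ ‖x k‖ := by
    refine (norm_inner_le_norm u (x k)).trans ?_
    exact mul_le_of_le_one_left (norm_nonneg _) hu1
  gcongr

end Pool.Agent.helper24.Row
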