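import Pool.Agent.helper24.Row.Defs
import Pool.Agent.helper24.Row.Slice

/-!
# The nilpotent tuple

`T_i e_0 = e_i`, `T_i e_j = 0` for `j ≥ 1` on `ℂ^{d+1}`.
-/

namespace Pool.Agent.helper24.Row

open Finset

/-- The Hilbert space `ℂ^{d+1}`. -/
abbrev EE (d : ℕ) : Type := EuclideanSpace ℂ (Fin (d + 1))

/-- `T_i x = x_0 e_i`. -/
noncomputable def TT (d : ℕ) (i : Fin d) : EE d →L[ℂ] EE d :=
  (EuclideanSpace.proj (0 : Fin (d + 1)) : EE d →L[ℂ] ℂ).smulRight
    (EuclideanSpace.single i.succ (1 : ℂ))

theorem TT_apply {d : ℕ} (i : Fin d) (x : EE d) :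
    TT d i x = x 0 • EuclideanSpace.single i.succ (1 : ℂ) := by
  simp [TT]

theorem TT_mul {d : ℕ} (i j : Fin d) : TT d i * TT d j = 0 := by
  ext x k
  rw [mul_apply_eq_comp, TT_apply, TT_apply]
  have h : (x 0 • (EuclideanSpace.single j.succ (1 : ℂ) : EE d)) 0 = 0 := by
    rw [PiLp.smul_apply, PiLp.single_apply, if_neg (Fin.succ_ne_zero j).symm]
    simp
  rw [h]
  simp

theorem TT_comm {d : ℕ} (i j : Fin d) : TT d i * TT d j = TT d j * TT d i := by
  rw [TT_mul, TT_mul]

section nil

variable {d : ℕ} {E : Type*} [NormedAddCommGroup E] [InnerProductSpace ℂ E]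
  {T : Fin d → E →L[ℂ] E} (hT : ∀ i j, T i * T j = 0)

include hT in
theorem nil_list (l : List (Fin d × ℕ)) :
    (l.map fun q => T q.1 ^ q.2).prod
      = (if (l.map Prod.snd).sum = 0 then 1 else 0)
        + (if (l.map Prod.snd).sum = 1 then (l.map fun q => (q.2 : ℂ) • T q.1).sum else 0) := by
  induction l with
  | nil => simp
  | cons q l ih =>
    obtain ⟨i, a⟩ := q
    simp only [List.map_cons, List.prod_cons, List.sum_cons]
    rw [ih]
    have hmul : ∀ L : List (Fin d × ℕ), T i * (L.map fun q => (q.2 : ℂ) • T q.1).sum = 0 := by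
      intro L
      induction L with
      | nil => simp
      | cons q L ihL =>
        rw [List.map_cons, List.sum_cons, mul_add, ihL, mul_smul_comm, hT]
        simp
    have hzero : ∀ L : List (Fin d × ℕ), (L.map Prod.snd).sum = 0 →
        (L.map fun q => (q.2 : ℂ) • T q.1).sum = 0 := by
      intro L
      induction L with
      | nil => simp
      | cons q L ihL =>
        intro h
        rw [List.map_cons, List.sum_cons] at h
        have h1 : q.2 = 0 := by omega
        have h2 : (L.map Prod.snd).sum = 0 := by omega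
        rw [List.map_cons, List.sum_cons, ihL h2, h1]
        simp
    rcases Nat.lt_or_ge a 2 with ha | ha
    · interval_cases a
      · simp
      · simp only [pow_one, Nat.cast_one, one_smul]
        rw [mul_add]
        by_cases h0 : (l.map Prod.snd).sum = 0
        · rw [h0, hzero l h0]
          simp
        · by_cases h1 : (l.map Prod.snd).sum = 1
          · rw [h1, if_pos rfl, hmul]
            simp
          · rw [if_neg h0, if_neg h1, if_neg (by omega), if_neg (by omega)]
            simp
    · have hpow : T i ^ a = 0 := by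
        obtain ⟨b, rfl⟩ : ∃ b, a = b + 2 := ⟨a - 2, by omega⟩
        rw [pow_add, pow_two, hT, mul_zero]
      rw [hpow, zero_mul, if_neg (by omega), if_neg (by omega)]
      simp

include hT in
theorem nil_mono (α : Fin d →₀ ℕ) :
    (List.ofFn fun i => T i ^ α i).prod
      = (if ∑ i, α i = 0 then 1 else 0) + (if ∑ i, α i = 1 then ∑ i, (α i : ℂ) • T i else 0) := by
  have h := nil_list hT (List.ofFn fun i : Fin d => (i, α i))
  simp only [List.map_ofFn] at h
  have h1 : (List.ofFn (Prod.snd ∘ fun i : Fin d => (i, α i))).sum = ∑ i, α i := by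
    rw [List.sum_ofFn]
    rfl
  have h2 : (List.ofFn ((fun q : Fin d × ℕ => (q.2 : ℂ) • T q.1) ∘ fun i : Fin d => (i, α i))).sum
      = ∑ i, (α i : ℂ) • T i := by
    rw [List.sum_ofFn]
    rfl
  rw [h1, h2] at h
  exact h

include hT in
theorem opEval_nil (p : MvPolynomial (Fin d) ℂ) :
    opEval T p = MvPolynomial.coeff 0 p • (1 : E →L[ℂ] E)
      + ∑ i, MvPolynomial.coeff (Finsupp.single i 1) p • T i := by
  classical
  rw [opEval_def]
  have hterm : ∀ α : Fin d →₀ ℕ, MvPolynomial.coeff α p • (List.ofFn fun i => T i ^ α i).prod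
      = (if α = 0 then MvPolynomial.coeff 0 p • (1 : E →L[ℂ] E) else 0)
        + ∑ i, (if α = Finsupp.single i 1 then MvPolynomial.coeff (Finsupp.single i 1) p • T i
          else 0) := by
    intro α
    rw [nil_mono hT, smul_add]
    congr 1
    · by_cases h : α = 0
      · subst h
        simp
      · rw [if_neg h, if_neg, smul_zero]
        intro h'
        apply h
        ext i
        have := (Finset.sum_eq_zero_iff (s := Finset.univ) (f := fun i => α i)).1 h' i
          (Finset.mem_univ i)
        simpa using this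
    · by_cases h : ∑ i, α i = 1
      · obtain ⟨i, hi⟩ : ∃ i, α = Finsupp.single i 1 := by
          have hne : ∃ i, α i ≠ 0 := by
            by_contra hcon
            push Not at hcon
            simp [hcon] at h
          obtain ⟨i, hi⟩ := hne
          refine ⟨i, ?_⟩
          have hsum := Finset.add_sum_erase Finset.univ (fun j => α j) (Finset.mem_univ i)
          have h1 : α i = 1 := by
            have : α i ≤ ∑ j, α j :=
              Finset.single_le_sum (fun j _ => Nat.zero_le _) (Finset.mem_univ i)
            omega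
          have h2 : ∑ j ∈ Finset.univ.erase i, α j = 0 := by
            omega
          ext j
          by_cases hj : j = i
          · subst hj
            simp [h1]
          · have := (Finset.sum_eq_zero_iff (s := Finset.univ.erase i) (f := fun j => α j)).1 h2 j
              (by simp [hj])
            rw [Finsupp.single_apply, if_neg (Ne.symm hj)]
            simpa using this
        rw [if_pos h]
        subst hi
        rw [Finset.sum_eq_single i, Finset.sum_eq_single i]
        · simp
        · intro j _ hj
          rw [if_neg]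
          intro h'
          have := DFunLike.congr_fun h' j
          simp [Finsupp.single_apply, Ne.symm hj] at this
        · simp
        · intro j _ hj
          simp [Finsupp.single_apply, Ne.symm hj]
        · simp
      · rw [if_neg h, smul_zero]
        symm
        apply Finset.sum_eq_zero
        intro i _
        rw [if_neg]
        rintro rfl
        apply h
        simp [Finsupp.single_apply]
  rw [Finset.sum_congr rfl fun α _ => hterm α, Finset.sum_add_distrib]
  congr 1
  · rw [Finset.sum_ite_eq']
    split_ifs with h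
    · rfl
    · rw [MvPolynomial.notMem_support_iff.1 h]
      simp
  · rw [Finset.sum_comm]
    refine Finset.sum_congr rfl fun i _ => ?_
    rw [Finset.sum_ite_eq']
    split_ifs with h
    · rfl
    · rw [MvPolynomial.notMem_support_iff.1 h]
      simp

end nil

theorem opEval_TT {d : ℕ} (p : MvPolynomial (Fin d) ℂ) :
    opEval (TT d) p = MvPolynomial.coeff 0 p • (1 : EE d →L[ℂ] EE d)
      + ∑ i, MvPolynomial.coeff (Finsupp.single i 1) p • TT d i :=
  opEval_nil TT_mul p

theorem norm_sq_EE {d : ℕ} (x : EE d) :
    ‖x‖ ^ 2 = ‖x 0‖ ^ 2 + ‖(WithLp.toLp 2 (fun i : Fin d => x i.succ) : EuclideanSpace ℂ (Fin d))‖ ^ 2 := by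
  rw [EuclideanSpace.norm_sq_eq, EuclideanSpace.norm_sq_eq, Fin.sum_univ_succ]

/-- Row inequality for the nilpotent tuple against a sup norm bound. -/
theorem row_TT {d m : ℕ} (P : Matrix (Fin 1) (Fin m) (Pol d)) (C : ℝ) (hC0 : 0 ≤ C)
    (hC : ∀ z : EuclideanSpace ℂ (Fin d), ‖z‖ ≤ 1 →
      ∑ k, ‖MvPolynomial.eval z (P 0 k)‖ ^ 2 ≤ C ^ 2) : OpBound (TT d) P C := by
  refine ⟨hC0, fun x => ?_⟩
  rw [Fin.sum_univ_one, norm_sq_EE]
  have hcomp : ∀ j : Fin (d + 1), (∑ k, opEval (TT d) (P 0 k) (x k)) j
      = ∑ k, (opEval (TT d) (P 0 k) (x k)) j := by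
    intro j
    rw [WithLp.ofLp_sum, Finset.sum_apply]
  have h0 : (∑ k, opEval (TT d) (P 0 k) (x k)) 0 = ∑ k, MvPolynomial.coeff 0 (P 0 k) * x k 0 := by
    rw [hcomp]
    refine Finset.sum_congr rfl fun k _ => ?_
    rw [opEval_TT]
    simp only [add_apply, smul_apply, one_apply_eq_self, _root_.sum_apply, PiLp.add_apply,
      PiLp.smul_apply, smul_eq_mul, WithLp.ofLp_sum, Finset.sum_apply, TT_apply]
    rw [add_eq_left]
    apply Finset.sum_eq_zero
    intro i _
    rw [PiLp.single_apply, if_neg (Fin.succ_ne_zero i).symm]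
    simp
  have h1 : ∀ i : Fin d, (∑ k, opEval (TT d) (P 0 k) (x k)) i.succ
      = ∑ k, (MvPolynomial.coeff 0 (P 0 k) * x k i.succ
        + MvPolynomial.coeff (Finsupp.single i 1) (P 0 k) * x k 0) := by
    intro i
    rw [hcomp]
    refine Finset.sum_congr rfl fun k _ => ?_
    rw [opEval_TT]
    simp only [add_apply, smul_apply, one_apply_eq_self, _root_.sum_apply, PiLp.add_apply,
      PiLp.smul_apply, smul_eq_mul, WithLp.ofLp_sum, Finset.sum_apply, TT_apply]
    congr 1
    rw [Finset.sum_eq_single i]
    · rw [PiLp.single_apply, if_pos rfl, mul_one]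
    · intro j _ hj
      rw [PiLp.single_apply, if_neg, mul_zero, mul_zero]
      exact fun h => hj (Fin.succ_injective _ h).symm
    · simp
  have key := row_T (fun k => P 0 k) C hC (fun k => x k 0)
    (fun k => WithLp.toLp 2 (fun i : Fin d => x k i.succ)) _
    (WithLp.toLp 2 (fun i : Fin d => (∑ k, opEval (TT d) (P 0 k) (x k)) i.succ)) h0
    (fun i => h1 i)
  refine key.trans_eq ?_
  congr 1
  exact Finset.sum_congr rfl fun k _ => (norm_sq_EE (x k)).symm

end Pool.Agent.helper24.Row
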