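import Mathlib

/-!
# Matrix polynomials of operator tuples and multiplication operators

Definitions for `MP_59d57e_an`.
-/

namespace Pool.Agent.helper24.Row

open scoped ComplexConjugate

/-- `ℂ^d` with its Euclidean norm. -/
abbrev CC (d : ℕ) : Type := EuclideanSpace ℂ (Fin d)

/-- The open unit ball of `ℂ^d`. -/
abbrev BB (d : ℕ) : Set (CC d) := Metric.ball 0 1

/-- Polynomials in `d` complex variables. -/
abbrev Pol (d : ℕ) : Type := MvPolynomial (Fin d) ℂ

/-- The function `(z, w) ↦ (1 - ∑ z_i conj(w_i))^{-N}` on the unit ball of `ℂ^d`. -/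
noncomputable def ballKernel (d N : ℕ) (z w : BB d) : ℂ :=
  1 / (1 - ∑ i, z.1 i * conj (w.1 i)) ^ N

/-- `HasKernel H K`: the reproducing kernel Hilbert space `H` of complex functions on the set `Ω`
has reproducing kernel `K` (Mathlib's `RKHS.kernel H z w` is an operator on `ℂ`, that is
multiplication by its value at `1`). -/
def HasKernel {Ω : Type*} (H : Type*) [NormedAddCommGroup H] [InnerProductSpace ℂ H]
    [CompleteSpace H] [RKHS ℂ H Ω ℂ] (K : Ω → Ω → ℂ) : Prop :=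
  ∀ z w : Ω, RKHS.kernel H z w (1 : ℂ) = K z w

/-- `monOp T α = T_0 ^ α_0 * ... * T_{d-1} ^ α_{d-1}`. -/
noncomputable def monOp {d : ℕ} {E : Type*} [NormedAddCommGroup E] [InnerProductSpace ℂ E]
    (T : Fin d → E →L[ℂ] E) (α : Fin d → ℕ) : E →L[ℂ] E :=
  (List.ofFn fun i => T i ^ α i).prod

/-- `opEval T p = p(T)`: the operator obtained from the polynomial `p` in `d` variables by
substituting the operators `T 0, ..., T (d-1)` for the variables: the sum over the monomials of `p`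
of the coefficient times the corresponding monomial in the operators. -/
noncomputable def opEval {d : ℕ} {E : Type*} [NormedAddCommGroup E] [InnerProductSpace ℂ E]
    (T : Fin d → E →L[ℂ] E) (p : Pol d) : E →L[ℂ] E :=
  ∑ α ∈ p.support, MvPolynomial.coeff α p • monOp T α

/-- `MultBound H P C`: multiplication by the `p × m` matrix polynomial `P` maps `H ⊗ ℂ^m = H^m`
into `H ⊗ ℂ^p = H^p` with operator norm at most `C`; in short, `‖P‖_Mult ≤ C`. Here `H` is a
reproducing kernel Hilbert space of functions on `Ω ⊆ ℂ^d`. -/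
def MultBound {d : ℕ} {Ω : Set (CC d)} (H : Type*) [NormedAddCommGroup H] [InnerProductSpace ℂ H]
    [RKHS ℂ H Ω ℂ] {p m : ℕ} (P : Matrix (Fin p) (Fin m) (Pol d)) (C : ℝ) : Prop :=
  0 ≤ C ∧ ∀ f : Fin m → H, ∃ g : Fin p → H,
    (∀ (i : Fin p) (z : Ω), g i z = ∑ j, MvPolynomial.eval z.1 (P i j) * f j z) ∧
      ∑ i, ‖g i‖ ^ 2 ≤ C ^ 2 * ∑ j, ‖f j‖ ^ 2

/-- `OpBound T P C`: the operator `P(T) : E^m → E^p`, `(P(T) x)_i = ∑ j, P_ij(T) x_j`, has operator
norm at most `C`. -/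
def OpBound {d : ℕ} {E : Type*} [NormedAddCommGroup E] [InnerProductSpace ℂ E]
    (T : Fin d → E →L[ℂ] E) {p m : ℕ} (P : Matrix (Fin p) (Fin m) (Pol d)) (C : ℝ) : Prop :=
  0 ≤ C ∧ ∀ x : Fin m → E, ∑ i, ‖∑ j, opEval T (P i j) (x j)‖ ^ 2 ≤ C ^ 2 * ∑ j, ‖x j‖ ^ 2

/-- The operators `T 0, ..., T (d-1)` commute with each other. -/
def IsCommuting {d : ℕ} {E : Type*} [NormedAddCommGroup E] [InnerProductSpace ℂ E]
    (T : Fin d → E →L[ℂ] E) : Prop :=
  ∀ (i j : Fin d) (x : E), T i (T j x) = T j (T i x)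

/-- The row inequality: `‖P(T)‖ ≤ ‖P‖_Mult` for every `m ≥ 1` and every `1 × m` matrix polynomial
`P`; that is, every bound for the multiplication operator of `P` is a bound for `P(T)`. -/
def RowInequality {d : ℕ} {Ω : Set (CC d)} (H : Type*) [NormedAddCommGroup H]
    [InnerProductSpace ℂ H] [RKHS ℂ H Ω ℂ] {E : Type*} [NormedAddCommGroup E]
    [InnerProductSpace ℂ E] (T : Fin d → E →L[ℂ] E) : Prop :=
  ∀ m : ℕ, 1 ≤ m → ∀ (P : Matrix (Fin 1) (Fin m) (Pol d)) (C : ℝ),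
    MultBound (Ω := Ω) H P C → OpBound T P C

/-- `T` is `Mult(H)`-contractive: `‖P(T)‖ ≤ ‖P‖_Mult` for every `m ≥ 1` and every `m × m` matrix
polynomial `P`. -/
def MultContractive {d : ℕ} {Ω : Set (CC d)} (H : Type*) [NormedAddCommGroup H]
    [InnerProductSpace ℂ H] [RKHS ℂ H Ω ℂ] {E : Type*} [NormedAddCommGroup E]
    [InnerProductSpace ℂ E] (T : Fin d → E →L[ℂ] E) : Prop :=
  ∀ m : ℕ, 1 ≤ m → ∀ (P : Matrix (Fin m) (Fin m) (Pol d)) (C : ℝ),
    MultBound (Ω := Ω) H P C → OpBound T P C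

theorem opEval_def {d : ℕ} {E : Type*} [NormedAddCommGroup E] [InnerProductSpace ℂ E]
    (T : Fin d → E →L[ℂ] E) (p : Pol d) :
    opEval T p = ∑ α ∈ p.support, MvPolynomial.coeff α p • (List.ofFn fun i => T i ^ α i).prod :=
  rfl

end Pool.Agent.helper24.Row
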