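import Pool.Agent.helper24.Row.Ball
import Pool.Agent.helper24.Row.Defs

/-!
# The reproducing kernel Hilbert space with kernel `(1 - ⟨z, w⟩)^{-(s+1)}` on the ball
-/

namespace Pool.Agent.helper24.Row

open Finset
open scoped ComplexConjugate Nat ENNReal

variable {d : ℕ}

/-- Square summable families indexed by multi-indices. -/
abbrev LL (d : ℕ) : Type := lp (fun _ : Fin d → ℕ => ℂ) 2

theorem LL_hasSum (f : LL d) : HasSum (fun α => ‖f α‖ ^ 2) (‖f‖ ^ 2) := by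
  have h := lp.hasSum_norm (p := 2) (by norm_num) f
  simpa using h

theorem memLL {f : (Fin d → ℕ) → ℂ} (h : Summable fun α => ‖f α‖ ^ 2) :
    Memℓp f 2 := by
  apply memℓp_gen
  simpa using h

/-- Coordinates of the kernel vectors. -/
noncomputable def kfun (s : ℕ) (z : EuclideanSpace ℂ (Fin d)) (α : Fin d → ℕ) : ℂ :=
  (Real.sqrt (cc s α) : ℂ) * ∏ i, (conj (z i)) ^ α i

theorem kfun_norm_sq (s : ℕ) (z : EuclideanSpace ℂ (Fin d)) (α : Fin d → ℕ) :
    ‖kfun s z α‖ ^ 2 = cc s α * ∏ i, (‖z i‖ ^ 2) ^ α i := by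
  unfold kfun
  rw [norm_mul, mul_pow, Complex.norm_real, Real.norm_of_nonneg (Real.sqrt_nonneg _),
    Real.sq_sqrt (cc_pos s α).le, norm_prod, ← Finset.prod_pow]
  congr 1
  refine Finset.prod_congr rfl fun i _ => ?_
  rw [norm_pow, RCLike.norm_conj, ← pow_mul, ← pow_mul, mul_comm]

theorem sum_lt_one (z : BB d) : ∑ i, ‖(z : EuclideanSpace ℂ (Fin d)) i‖ ^ 2 < 1 := by
  rw [← EuclideanSpace.norm_sq_eq]
  have h : ‖(z : EuclideanSpace ℂ (Fin d))‖ < 1 := mem_ball_zero_iff.1 z.2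
  have h0 := norm_nonneg (z : EuclideanSpace ℂ (Fin d))
  nlinarith

theorem sum_mul_lt_one (z w : BB d) :
    ∑ i, ‖(z : EuclideanSpace ℂ (Fin d)) i * conj ((w : EuclideanSpace ℂ (Fin d)) i)‖ < 1 := by
  have hz := sum_lt_one z
  have hw := sum_lt_one w
  have : ∀ i, ‖(z : EuclideanSpace ℂ (Fin d)) i * conj ((w : EuclideanSpace ℂ (Fin d)) i)‖
      ≤ (‖(z : EuclideanSpace ℂ (Fin d)) i‖ ^ 2 + ‖(w : EuclideanSpace ℂ (Fin d)) i‖ ^ 2) / 2 := by
    intro i
    rw [norm_mul, RCLike.norm_conj]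
    nlinarith [sq_nonneg (‖(z : EuclideanSpace ℂ (Fin d)) i‖ - ‖(w : EuclideanSpace ℂ (Fin d)) i‖)]
  calc _ ≤ ∑ i, (‖(z : EuclideanSpace ℂ (Fin d)) i‖ ^ 2
        + ‖(w : EuclideanSpace ℂ (Fin d)) i‖ ^ 2) / 2 := Finset.sum_le_sum fun i _ => this i
    _ = (∑ i, ‖(z : EuclideanSpace ℂ (Fin d)) i‖ ^ 2
        + ∑ i, ‖(w : EuclideanSpace ℂ (Fin d)) i‖ ^ 2) / 2 := by
        rw [← Finset.sum_div, Finset.sum_add_distrib]
    _ < 1 := by linarith

/-- The kernel vectors. -/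
noncomputable def kvec (s : ℕ) (z : BB d) : LL d :=
  ⟨kfun s z, memLL (by
    refine (summable_real s (fun i => ‖(z : EuclideanSpace ℂ (Fin d)) i‖ ^ 2)
      (fun i => by positivity) (sum_lt_one z)).congr fun α => ?_
    rw [kfun_norm_sq])⟩

theorem kvec_apply (s : ℕ) (z : BB d) (α : Fin d → ℕ) : kvec s z α = kfun s z α := rfl

theorem kvec_inner (s : ℕ) (z w : BB d) :
    inner ℂ (kvec s z) (kvec s w)
      = 1 / (1 - inner ℂ (w : EuclideanSpace ℂ (Fin d)) (z : EuclideanSpace ℂ (Fin d))) ^ (s + 1) := by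
  rw [lp.inner_eq_tsum]
  have h := hasSum_complex s (fun i => (z : EuclideanSpace ℂ (Fin d)) i
    * conj ((w : EuclideanSpace ℂ (Fin d)) i)) (sum_mul_lt_one z w)
  rw [PiLp.inner_apply]
  simp only [RCLike.inner_apply]
  rw [← h.tsum_eq]
  refine tsum_congr fun α => ?_
  rw [kvec_apply, kvec_apply, kfun, kfun, map_mul, map_prod, Complex.conj_ofReal]
  have h1 : ∀ i, conj (conj ((z : EuclideanSpace ℂ (Fin d)) i) ^ α i)
      = (z : EuclideanSpace ℂ (Fin d)) i ^ α i := by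
    intro i
    rw [map_pow, Complex.conj_conj]
  simp_rw [h1, mul_pow, Finset.prod_mul_distrib]
  have h2 : ((cc s α : ℝ) : ℂ) = (Real.sqrt (cc s α) : ℂ) * (Real.sqrt (cc s α) : ℂ) := by
    rw [← Complex.ofReal_mul, Real.mul_self_sqrt (cc_pos s α).le]
  rw [h2]
  ring

/-! ## Weighted shifts -/

/-- Weighted shift on functions. -/
noncomputable def shf (s : ℕ) (i : Fin d) (f : (Fin d → ℕ) → ℂ) (β : Fin d → ℕ) : ℂ :=
  if β i = 0 then 0 else
    (Real.sqrt ((β i : ℝ) / ((∑ j, β j : ℕ) + s)) : ℂ) * f (Function.update β i (β i - 1))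

theorem shf_up (s : ℕ) (i : Fin d) (f : (Fin d → ℕ) → ℂ) (γ : Fin d → ℕ) :
    shf s i f (up i γ) = (Real.sqrt (((γ i : ℝ) + 1) / ((∑ j, γ j : ℕ) + 1 + s)) : ℂ) * f γ := by
  unfold shf
  rw [if_neg (by rw [up_same]; omega), sum_up, up_same]
  have : Function.update (up i γ) i (γ i + 1 - 1) = γ := by
    ext j
    by_cases hj : j = i
    · subst hj; simp
    · simp [up, hj]
  rw [this]
  push_cast
  rfl

theorem shf_zero (s : ℕ) (i : Fin d) (f : (Fin d → ℕ) → ℂ) (β : Fin d → ℕ)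
    (h : β ∉ Set.range (up i)) : shf s i f β = 0 := by
  unfold shf
  rw [if_pos (mem_range_up i β h)]

/-- The squared weights. -/
noncomputable def wt (s : ℕ) (i : Fin d) (γ : Fin d → ℕ) : ℝ :=
  ((γ i : ℝ) + 1) / ((∑ j, γ j : ℕ) + 1 + s)

theorem wt_nonneg (s : ℕ) (i : Fin d) (γ : Fin d → ℕ) : 0 ≤ wt s i γ := by
  unfold wt
  positivity

theorem wt_le_one (s : ℕ) (i : Fin d) (γ : Fin d → ℕ) : wt s i γ ≤ 1 := by
  unfold wt
  rw [div_le_one (by positivity)]
  have : (γ i : ℝ) ≤ ((∑ j, γ j : ℕ) : ℝ) := by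
    exact_mod_cast Finset.single_le_sum (f := γ) (fun j _ => Nat.zero_le _) (Finset.mem_univ i)
  have hs : (0 : ℝ) ≤ s := Nat.cast_nonneg s
  linarith

theorem sum_wt_le (s : ℕ) (hs : 1 ≤ s) (hd : 2 ≤ d) (γ : Fin d → ℕ) :
    ∑ i, wt s i γ ≤ (d : ℝ) / 2 := by
  unfold wt
  rw [← Finset.sum_div, Finset.sum_add_distrib]
  simp only [Finset.sum_const, Finset.card_univ, Fintype.card_fin, nsmul_eq_mul, mul_one]
  rw [← Nat.cast_sum, div_le_div_iff₀ (by positivity) (by norm_num)]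
  have h1 : (1 : ℝ) ≤ s := by exact_mod_cast hs
  have h2 : (2 : ℝ) ≤ d := by exact_mod_cast hd
  have h3 : (0 : ℝ) ≤ ((∑ j, γ j : ℕ) : ℝ) := Nat.cast_nonneg _
  nlinarith

theorem shf_hasSum (s : ℕ) (i : Fin d) (f : LL d) :
    Summable (fun γ => wt s i γ * ‖f γ‖ ^ 2) ∧
      HasSum (fun β => ‖shf s i f β‖ ^ 2) (∑' γ, wt s i γ * ‖f γ‖ ^ 2) := by
  have h1 : Summable (fun γ => wt s i γ * ‖f γ‖ ^ 2) := by
    refine Summable.of_nonneg_of_le (fun γ => mul_nonneg (wt_nonneg s i γ) (by positivity))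
      (fun γ => ?_) (LL_hasSum f).summable
    exact mul_le_of_le_one_left (by positivity) (wt_le_one s i γ)
  refine ⟨h1, ?_⟩
  rw [← (up_injective i).hasSum_iff]
  · convert h1.hasSum using 1
    ext γ
    have hw : Real.sqrt (((γ i : ℝ) + 1) / ((∑ j, γ j : ℕ) + 1 + s)) ^ 2 = wt s i γ :=
      Real.sq_sqrt (wt_nonneg s i γ)
    rw [Function.comp_apply, shf_up, norm_mul, mul_pow, Complex.norm_real,
      Real.norm_of_nonneg (Real.sqrt_nonneg _), hw]
  · intro β hβ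
    rw [shf_zero s i f β hβ]
    simp

/-- The weighted shift. -/
noncomputable def shl (s : ℕ) (i : Fin d) : LL d →ₗ[ℂ] LL d where
  toFun f := ⟨shf s i f, memLL (shf_hasSum s i f).2.summable⟩
  map_add' f g := by
    apply lp.ext
    funext β
    change shf s i (f + g : LL d) β = shf s i f β + shf s i g β
    unfold shf
    split_ifs
    · simp
    · rw [lp.coeFn_add, Pi.add_apply, mul_add]
  map_smul' c f := by
    apply lp.ext
    funext β
    change shf s i (c • f : LL d) β = c * shf s i f β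
    unfold shf
    split_ifs
    · simp
    · rw [lp.coeFn_smul, Pi.smul_apply, smul_eq_mul]
      ring

theorem shl_apply (s : ℕ) (i : Fin d) (f : LL d) (β : Fin d → ℕ) : shl s i f β = shf s i f β := rfl

theorem shl_norm_sq (s : ℕ) (i : Fin d) (f : LL d) :
    ‖shl s i f‖ ^ 2 = ∑' γ, wt s i γ * ‖f γ‖ ^ 2 :=
  (LL_hasSum (shl s i f)).unique (shf_hasSum s i f).2

theorem shl_norm_le (s : ℕ) (i : Fin d) (f : LL d) : ‖shl s i f‖ ≤ 1 * ‖f‖ := by
  rw [one_mul]
  have h : ‖shl s i f‖ ^ 2 ≤ ‖f‖ ^ 2 := by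
    rw [shl_norm_sq, ← (LL_hasSum f).tsum_eq]
    refine (shf_hasSum s i f).1.tsum_le_tsum (fun γ => ?_) (LL_hasSum f).summable
    exact mul_le_of_le_one_left (by positivity) (wt_le_one s i γ)
  exact le_of_sq_le_sq h (norm_nonneg _)

/-- The weighted shift as a bounded operator. -/
noncomputable def Sh (s : ℕ) (i : Fin d) : LL d →L[ℂ] LL d := (shl s i).mkContinuous 1 (shl_norm_le s i)

theorem Sh_sum_le (s : ℕ) (hs : 1 ≤ s) (hd : 2 ≤ d) (f : LL d) :
    ∑ i, ‖Sh s i f‖ ^ 2 ≤ (d : ℝ) / 2 * ‖f‖ ^ 2 := by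
  have h1 : ∀ i, ‖Sh s i f‖ ^ 2 = ∑' γ, wt s i γ * ‖f γ‖ ^ 2 := fun i => shl_norm_sq s i f
  rw [Finset.sum_congr rfl fun i _ => h1 i, ← Summable.tsum_finsetSum (fun i _ => (shf_hasSum s i f).1),
    ← (LL_hasSum f).tsum_eq, ← tsum_mul_left]
  refine Summable.tsum_le_tsum (fun γ => ?_) (summable_sum fun i _ => (shf_hasSum s i f).1)
    ((LL_hasSum f).summable.mul_left _)
  rw [← Finset.sum_mul]
  exact mul_le_mul_of_nonneg_right (sum_wt_le s hs hd γ) (by positivity)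

theorem Sh_inner (s : ℕ) (i : Fin d) (z : BB d) (f : LL d) :
    inner ℂ (kvec s z) (Sh s i f) = (z : EuclideanSpace ℂ (Fin d)) i * inner ℂ (kvec s z) f := by
  have h1 := lp.hasSum_inner (𝕜 := ℂ) (kvec s z) (Sh s i f)
  have h2 := lp.hasSum_inner (𝕜 := ℂ) (kvec s z) f
  have h3 := h2.mul_left ((z : EuclideanSpace ℂ (Fin d)) i)
  refine h1.unique ?_
  rw [← (up_injective i).hasSum_iff]
  · have he : ((fun β => inner ℂ (kvec s z β) (Sh s i f β)) ∘ up i)
        = fun γ => (z : EuclideanSpace ℂ (Fin d)) i * inner ℂ (kvec s z γ) (f γ) := by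
      funext γ
      simp only [Function.comp_apply, RCLike.inner_apply]
      change shf s i f (up i γ) * conj (kfun s z (up i γ)) = _ * (f γ * conj (kfun s z γ))
      rw [shf_up, kfun, kfun, prod_up]
      simp only [map_mul, Complex.conj_conj, Complex.conj_ofReal, map_prod, map_pow]
      have hw : Real.sqrt (((γ i : ℝ) + 1) / ((∑ j, γ j : ℕ) + 1 + s))
          * Real.sqrt (cc s (up i γ)) = Real.sqrt (cc s γ) := by
        rw [← Real.sqrt_mul (by positivity)]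
        congr 1
        have := cc_up s i γ
        field_simp
        linarith
      have hw' : (Real.sqrt (((γ i : ℝ) + 1) / ((∑ j, γ j : ℕ) + 1 + s)) : ℂ)
          * (Real.sqrt (cc s (up i γ)) : ℂ) = (Real.sqrt (cc s γ) : ℂ) := by
        rw [← Complex.ofReal_mul, hw]
      rw [← hw']
      ring
    rw [he]
    exact h3
  · intro β hβ
    simp only [RCLike.inner_apply]
    change shf s i f β * _ = 0
    rw [shf_zero s i f β hβ, zero_mul]

end Pool.Agent.helper24.Row
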