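import Mathlib

/-!
# Weighted sequence spaces and the kernels `(1 - ⟨z, w⟩)^{-(s+1)}` on the ball

Auxiliary file for `MP_59d57e_an`.
-/

namespace Pool.Agent.helper24.Row

open Finset
open scoped ComplexConjugate Nat ENNReal

variable {d : ℕ}

/-- The coefficients of the kernel. -/
noncomputable def cc (s : ℕ) (α : Fin d → ℕ) : ℝ :=
  ((∑ i, α i + s)! : ℝ) / ((s ! : ℝ) * ∏ i, ((α i)! : ℝ))

theorem cc_pos (s : ℕ) (α : Fin d → ℕ) : 0 < cc s α := by
  unfold cc
  have h1 : 0 < ∏ i, ((α i)! : ℝ) := Finset.prod_pos fun i _ => by exact_mod_cast Nat.factorial_pos _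
  have h2 : (0 : ℝ) < (s ! : ℝ) := by exact_mod_cast Nat.factorial_pos _
  have h3 : (0 : ℝ) < ((∑ i, α i + s)! : ℝ) := by exact_mod_cast Nat.factorial_pos _
  positivity

theorem cc_eq (s : ℕ) (α : Fin d → ℕ) :
    cc s α = (((∑ i, α i) + s).choose s : ℝ) * (Nat.multinomial univ α : ℝ) := by
  have h1 : (∏ i, ((α i)! : ℝ)) * (Nat.multinomial univ α : ℝ) = ((∑ i, α i)! : ℝ) := by
    have := Nat.multinomial_spec univ α
    exact_mod_cast this
  have h2 : (((∑ i, α i) + s).choose s : ℝ) * ((s ! : ℝ) * ((∑ i, α i)! : ℝ))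
      = ((∑ i, α i + s)! : ℝ) := by
    have := Nat.add_choose_mul_factorial_mul_factorial (∑ i, α i) s
    have h3 : ((∑ i, α i) + s).choose s = ((∑ i, α i) + s).choose (∑ i, α i) :=
      (Nat.choose_symm_add).symm
    have h4 : ((∑ i, α i) + s).choose s * (s ! * (∑ i, α i)!) = (∑ i, α i + s)! := by
      rw [← this, h3]; ring
    exact_mod_cast h4
  have hp : (∏ i, ((α i)! : ℝ)) ≠ 0 :=
    Finset.prod_ne_zero_iff.2 fun i _ => by exact_mod_cast Nat.factorial_ne_zero _
  have hs : (s ! : ℝ) ≠ 0 := by exact_mod_cast Nat.factorial_ne_zero _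
  unfold cc
  rw [div_eq_iff (by positivity), ← h2, ← h1]
  ring

/-- Raising the `i`-th exponent. -/
def up (i : Fin d) (α : Fin d → ℕ) : Fin d → ℕ := Function.update α i (α i + 1)

theorem up_same (i : Fin d) (α : Fin d → ℕ) : up i α i = α i + 1 := by simp [up]

theorem up_injective (i : Fin d) : Function.Injective (up i) := by
  intro α β h
  ext j
  have := congrFun h j
  by_cases hj : j = i
  · subst hj
    simpa [up] using this
  · simpa [up, hj] using this

theorem mem_range_up (i : Fin d) (β : Fin d → ℕ) (h : β ∉ Set.range (up i)) : β i = 0 := by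
  by_contra hne
  apply h
  refine ⟨Function.update β i (β i - 1), ?_⟩
  ext j
  by_cases hj : j = i
  · subst hj
    simp [up]
    omega
  · simp [up, hj]

theorem sum_up (i : Fin d) (α : Fin d → ℕ) : ∑ j, up i α j = ∑ j, α j + 1 := by
  unfold up
  rw [Finset.sum_update_of_mem (Finset.mem_univ i), ← Finset.add_sum_erase _ _ (Finset.mem_univ i),
    Finset.sdiff_singleton_eq_erase]
  ring

theorem cc_up (s : ℕ) (i : Fin d) (α : Fin d → ℕ) :
    cc s (up i α) * ((α i : ℝ) + 1) = cc s α * ((∑ j, α j : ℕ) + 1 + s) := by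
  have hprod : ∏ j, ((up i α j)! : ℝ) = ((α i : ℝ) + 1) * ∏ j, ((α j)! : ℝ) := by
    rw [← Finset.mul_prod_erase _ _ (Finset.mem_univ i),
      ← Finset.mul_prod_erase _ (fun j => ((α j)! : ℝ)) (Finset.mem_univ i), up_same,
      Nat.factorial_succ]
    push_cast
    rw [mul_assoc]
    congr 2
    refine Finset.prod_congr rfl fun j hj => ?_
    rw [up, Function.update_of_ne (Finset.ne_of_mem_erase hj)]
  have hp : (∏ i, ((α i)! : ℝ)) ≠ 0 :=
    Finset.prod_ne_zero_iff.2 fun i _ => by exact_mod_cast Nat.factorial_ne_zero _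
  have hs : (s ! : ℝ) ≠ 0 := by exact_mod_cast Nat.factorial_ne_zero _
  have ha : ((α i : ℝ) + 1) ≠ 0 := by positivity
  have hfac : ((∑ j, α j + 1 + s)! : ℝ) = ((∑ j, α j : ℕ) + 1 + s) * ((∑ j, α j + s)! : ℝ) := by
    rw [show ∑ j, α j + 1 + s = (∑ j, α j + s) + 1 by ring, Nat.factorial_succ]
    push_cast
    ring
  unfold cc
  rw [sum_up, hprod, hfac]
  field_simp

theorem prod_up (i : Fin d) (α : Fin d → ℕ) (x : Fin d → ℂ) :
    ∏ j, x j ^ up i α j = x i * ∏ j, x j ^ α j := by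
  rw [← Finset.mul_prod_erase _ _ (Finset.mem_univ i),
      ← Finset.mul_prod_erase _ (fun j => x j ^ α j) (Finset.mem_univ i), up_same, pow_succ]
  have : ∏ j ∈ Finset.univ.erase i, x j ^ up i α j = ∏ j ∈ Finset.univ.erase i, x j ^ α j := by
    refine Finset.prod_congr rfl fun j hj => ?_
    rw [up, Function.update_of_ne (Finset.ne_of_mem_erase hj)]
  rw [this]
  ring

/-! ## Summation over multi-indices -/

/-- The fibre of the degree map. -/
noncomputable def fibEquiv (n : ℕ) :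
    {α : Fin d → ℕ // α ∈ Finset.piAntidiag (Finset.univ : Finset (Fin d)) n}
      ≃ {α : Fin d → ℕ // ∑ i, α i = n} :=
  Equiv.subtypeEquivRight fun α => by simp [Finset.mem_piAntidiag]

theorem summable_deg {f : (Fin d → ℕ) → ℝ} (hf : ∀ α, 0 ≤ f α)
    (h : Summable fun n => ∑ α ∈ Finset.piAntidiag (Finset.univ : Finset (Fin d)) n, f α) :
    Summable f := by
  rw [← (Equiv.sigmaFiberEquiv (fun α : Fin d → ℕ => ∑ i, α i)).summable_iff]
  rw [summable_sigma_of_nonneg (fun x => by exact hf _)]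
  have hfib : ∀ n, HasSum (fun α : {α : Fin d → ℕ // ∑ i, α i = n} => f α)
      (∑ α ∈ Finset.piAntidiag (Finset.univ : Finset (Fin d)) n, f α) := by
    intro n
    rw [← (fibEquiv n).hasSum_iff]
    exact Finset.hasSum _ f
  refine ⟨fun n => (hfib n).summable, ?_⟩
  refine h.congr fun n => ?_
  exact (hfib n).tsum_eq.symm

theorem hasSum_deg {f : (Fin d → ℕ) → ℂ} {a : ℂ} (hf : Summable f)
    (h : HasSum (fun n => ∑ α ∈ Finset.piAntidiag (Finset.univ : Finset (Fin d)) n, f α) a) :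
    HasSum f a := by
  rw [← (Equiv.sigmaFiberEquiv (fun α : Fin d → ℕ => ∑ i, α i)).hasSum_iff]
  refine HasSum.sigma_of_hasSum h ?_ ?_
  · intro n
    rw [← (fibEquiv n).hasSum_iff]
    exact Finset.hasSum _ f
  · rw [(Equiv.sigmaFiberEquiv (fun α : Fin d → ℕ => ∑ i, α i)).summable_iff]
    exact hf

theorem inner_sum {R : Type*} [CommSemiring R] (s n : ℕ) (x : Fin d → R) :
    ∑ α ∈ Finset.piAntidiag (Finset.univ : Finset (Fin d)) n,
      ((((∑ i, α i) + s).choose s * Nat.multinomial univ α : ℕ) : R) * ∏ i, x i ^ α i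
      = ((n + s).choose s : R) * (∑ i, x i) ^ n := by
  rw [Finset.sum_pow_eq_sum_piAntidiag, Finset.mul_sum]
  refine Finset.sum_congr rfl fun α hα => ?_
  have : ∑ i, α i = n := by simpa [Finset.mem_piAntidiag] using hα
  rw [this]
  push_cast
  ring

theorem summable_real (s : ℕ) (x : Fin d → ℝ) (hx : ∀ i, 0 ≤ x i) (hx1 : ∑ i, x i < 1) :
    Summable fun α : Fin d → ℕ => cc s α * ∏ i, x i ^ α i := by
  apply summable_deg
  · intro α
    exact mul_nonneg (cc_pos s α).le (Finset.prod_nonneg fun i _ => pow_nonneg (hx i) _)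
  · have h := summable_choose_mul_geometric_of_norm_lt_one s (r := ∑ i, x i)
      (by rwa [Real.norm_of_nonneg (Finset.sum_nonneg fun i _ => hx i)])
    refine h.congr fun n => ?_
    rw [← inner_sum]
    refine Finset.sum_congr rfl fun α _ => ?_
    rw [cc_eq]
    push_cast
    ring

theorem hasSum_complex (s : ℕ) (x : Fin d → ℂ) (hx1 : ∑ i, ‖x i‖ < 1) :
    HasSum (fun α : Fin d → ℕ => ((cc s α : ℝ) : ℂ) * ∏ i, x i ^ α i)
      (1 / (1 - ∑ i, x i) ^ (s + 1)) := by
  apply hasSum_deg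
  · apply Summable.of_norm
    refine (summable_real s (fun i => ‖x i‖) (fun i => norm_nonneg _) hx1).congr fun α => ?_
    rw [norm_mul, Complex.norm_real, Real.norm_of_nonneg (cc_pos s α).le, norm_prod]
    simp
  · have h := hasSum_choose_mul_geometric_of_norm_lt_one s (r := ∑ i, x i)
      ((norm_sum_le _ _).trans_lt hx1)
    have he : (fun n : ℕ => ∑ α ∈ Finset.piAntidiag (Finset.univ : Finset (Fin d)) n,
        ((cc s α : ℝ) : ℂ) * ∏ i, x i ^ α i)
        = fun n : ℕ => ((n + s).choose s : ℂ) * (∑ i, x i) ^ n := by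
      funext n
      rw [← inner_sum]
      refine Finset.sum_congr rfl fun α _ => ?_
      rw [cc_eq]
      push_cast
      ring
    rw [he]
    exact h

end Pool.Agent.helper24.Row
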